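import Pool.Agent.NL.StmtsB

/-!
# Squad NLO, row CUI: the intervals of a binary martingale
-/

set_option autoImplicit false

open MeasureTheory Filter Topology

noncomputable section

namespace Pool.Agent.NL.H27

/-- the left endpoints -/
def cal (σ : ℕ → ℕ) (w : ℕ → ℕ → ℝ) : ℕ → ℝ
  | 0 => 0
  | (n + 1) => if h : σ (n + 1) < n + 1 then cal σ w (σ (n + 1)) + w (n + 2) (σ (n + 1)) else 0
termination_by n => n
decreasing_by exact h

theorem cal_zero (σ : ℕ → ℕ) (w : ℕ → ℕ → ℝ) : cal σ w 0 = 0 := by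
  rw [cal]

theorem cal_suc (σ : ℕ → ℕ) (w : ℕ → ℕ → ℝ) (n : ℕ) (h : σ (n + 1) < n + 1) :
    cal σ w (n + 1) = cal σ w (σ (n + 1)) + w (n + 2) (σ (n + 1)) := by
  rw [cal, dif_pos h]

theorem cui_split (a p r x : ℝ) (hp : 0 < p) (hr : 0 < r) :
    max 0 (min (x - a) (p + r)) = max 0 (min (x - a) p) + max 0 (min (x - (a + p)) r) := by
  simp only [max_def, min_def]
  split_ifs <;> linarith

theorem cui : CuiStmt := by
  intro X _ _ σ w Y M hB
  have hA : AlP σ w (cal σ w) := by
    refine ⟨cal_zero σ w, fun n hn => ?_⟩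
    obtain ⟨m, rfl⟩ : ∃ m, n = m + 1 := ⟨n - 1, by omega⟩
    exact cal_suc σ w m (hB.lt _ hn)
  set α := cal σ w with hα
  refine ⟨α, hA, ?_⟩
  have hsp : ∀ n, 1 ≤ n → ∀ x, cw w α n (σ n) x = cw w α (n + 1) (σ n) x + cw w α (n + 1) n x := by
    intro n hn x
    have hs := hB.lt n hn
    simp only [cw]
    rw [hA.suc n hn, hB.w2 n hn]
    exact cui_split _ _ _ _ (hB.pos _ _ (by omega)) (hB.pos _ _ (by omega))
  intro n hn
  suffices h : (∀ i, i < n → 0 ≤ α i ∧ α i + w n i ≤ 1) ∧
      (∀ i, i < n → ∀ j, j < n → i ≠ j → α i + w n i ≤ α j ∨ α j + w n j ≤ α i) ∧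
      (∀ x, ∑ i ∈ Finset.range n, cw w α n i x = max 0 (min x 1)) from
    ⟨h.1, h.2.1, h.2.2, hsp n hn⟩
  induction n, hn using Nat.le_induction with
  | base =>
    refine ⟨fun i hi => ?_, fun i hi j hj hij => ?_, fun x => ?_⟩
    · obtain rfl : i = 0 := by omega
      rw [hA.zero, hB.one]
      norm_num
    · omega
    · rw [Finset.sum_range_one, cw, hA.zero, hB.one, sub_zero]
  | succ n hn ih =>
    obtain ⟨h1, h2, h3⟩ := ih
    have hs := hB.lt n hn
    have hp1 : 0 < w (n + 1) (σ n) := hB.pos _ _ (by omega)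
    have hp2 : 0 < w (n + 1) n := hB.pos _ _ (by omega)
    have hw2 := hB.w2 n hn
    have hal := hA.suc n hn
    -- the parent
    have hpar : ∀ i, i < n + 1 → ∃ k, k < n ∧ (k = i ∨ (i = n ∧ k = σ n)) ∧ α k ≤ α i ∧
        α i + w (n + 1) i ≤ α k + w n k := by
      intro i hi
      by_cases hin : i = n
      · refine ⟨σ n, hs, Or.inr ⟨hin, rfl⟩, ?_, ?_⟩
        · rw [hin, hal]
          linarith
        · rw [hin, hal, hw2]
          linarith
      · refine ⟨i, by omega, Or.inl rfl, le_rfl, ?_⟩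
        by_cases his : i = σ n
        · rw [his, hw2]
          linarith
        · rw [hB.w1 n i (by omega) his]
    refine ⟨fun i hi => ?_, fun i hi j hj hij => ?_, fun x => ?_⟩
    · obtain ⟨k, hk, -, h4, h5⟩ := hpar i hi
      have h6 := h1 k hk
      exact ⟨h6.1.trans h4, h5.trans h6.2⟩
    · obtain ⟨k, hk, hki, h4, h5⟩ := hpar i hi
      obtain ⟨l, hl, hlj, h6, h7⟩ := hpar j hj
      by_cases hkl : k = l
      · rcases hki with rfl | ⟨hin, hks⟩
        · rcases hlj with rfl | ⟨hjn, hls⟩
          · exact absurd hkl hij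
          · left
            rw [hjn, hal, hkl, hls]
        · rcases hlj with rfl | ⟨hjn, hls⟩
          · right
            rw [hin, hal, ← hkl, hks]
          · exact absurd (hin.trans hjn.symm) hij
      · rcases h2 k hk l hl hkl with h8 | h8
        · left
          linarith
        · right
          linarith
    · rw [Finset.sum_range_succ]
      have hmem : σ n ∈ Finset.range n := Finset.mem_range.2 hs
      rw [← Finset.add_sum_erase _ _ hmem]
      have he : ∑ i ∈ (Finset.range n).erase (σ n), cw w α (n + 1) i x =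
          ∑ i ∈ (Finset.range n).erase (σ n), cw w α n i x := by
        refine Finset.sum_congr rfl fun i hi => ?_
        rw [Finset.mem_erase, Finset.mem_range] at hi
        simp only [cw, hB.w1 n i hi.2 hi.1]
      rw [he, add_right_comm, ← hsp n hn x,
        Finset.add_sum_erase (Finset.range n) (fun i => cw w α n i x) hmem]
      exact h3 x

end Pool.Agent.NL.H27
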